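import Mathlib

set_option autoImplicit false

universe u

namespace Pool.Agent.N486.SR

open Set

variable {X : Type u}

/-- no infinite sequence of pairwise incomparable members of `J` through a common point -/
def Fac (J : Set (Set X)) : Prop :=
  ∀ p : X, ∀ G : ℕ → Set X, (∀ n, G n ∈ J ∧ p ∈ G n) →
    (∀ m n, m < n → ¬ G m ⊆ G n ∧ ¬ G n ⊆ G m) → False

/-- the directed closure of a family of sets -/
def cl (J : Set (Set X)) : Set (Set X) :=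
  {E | ∀ F : Set X, F.Finite → F ⊆ E → ∃ B ∈ J, F ⊆ B ∧ B ⊆ E}

/-- members of `J` inside `O` -/
def ins (J : Set (Set X)) (O : Set X) : Set (Set X) := {B | B ∈ J ∧ B ⊆ O}

/-- any two members of `J` inside `O` containing `D` have an upper bound of the same kind -/
def Atom (J : Set (Set X)) (O D : Set X) : Prop :=
  D ∈ ins J O ∧ ∀ C₁ ∈ ins J O, ∀ C₂ ∈ ins J O, D ⊆ C₁ → D ⊆ C₂ →
    ∃ C ∈ ins J O, C₁ ⊆ C ∧ C₂ ⊆ C

theorem exists_atom {J : Set (Set X)} (hf : Fac J) {O B : Set X} (hB : B ∈ ins J O)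
    (hne : B.Nonempty) : ∃ D, Atom J O D ∧ B ⊆ D := by
  by_contra hcon
  push Not at hcon
  -- elements without an atom above
  let NA : Type u := {B : Set X // B ∈ ins J O ∧ ∀ D, Atom J O D → ¬ B ⊆ D}
  have step : ∀ y : NA, ∃ (C₁ : Set X) (C₂ : NA), C₁ ∈ ins J O ∧ y.1 ⊆ C₁ ∧ y.1 ⊆ C₂.1 ∧
      ¬ ∃ C ∈ ins J O, C₁ ⊆ C ∧ C₂.1 ⊆ C := by
    rintro ⟨y, hy1, hy2⟩
    have hna : ¬ Atom J O y := fun h => hy2 y h subset_rfl
    unfold Atom at hna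
    rw [not_and] at hna
    have := hna hy1
    push Not at this
    obtain ⟨C₁, hC₁, C₂, hC₂, h1, h2, h3⟩ := this
    refine ⟨C₁, ⟨C₂, hC₂, fun D hD hCD => hy2 D hD (h2.trans hCD)⟩, hC₁, h1, h2, ?_⟩
    rintro ⟨C, hC, h4, h5⟩
    exact h3 C hC h4 h5
  choose f g hf1 hf2 hg hfg using step
  let y : ℕ → NA := fun n => Nat.rec ⟨B, hB, hcon⟩ (fun _ z => g z) n
  have hy : ∀ n, y (n + 1) = g (y n) := fun n => rfl
  have hmono : Monotone fun n => (y n).1 := by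
    apply monotone_nat_of_le_succ
    intro n
    show (y n).1 ⊆ (y (n + 1)).1
    rw [hy]; exact hg _
  obtain ⟨p, hp⟩ := hne
  refine hf p (fun n => f (y n)) (fun n => ⟨(hf1 _).1, hf2 _ (hmono (Nat.zero_le n) hp)⟩) ?_
  intro m n hmn
  have h1 : (y (m + 1)).1 ⊆ f (y n) := (hmono (Nat.succ_le_of_lt hmn)).trans (hf2 _)
  rw [hy] at h1
  constructor
  · intro h
    exact hfg (y m) ⟨f (y n), hf1 _, h, h1⟩
  · intro h
    exact hfg (y m) ⟨f (y m), hf1 _, subset_rfl, h1.trans h⟩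

/-- union of the members above `D` -/
def un (J : Set (Set X)) (O D : Set X) : Set X := ⋃₀ {C | C ∈ ins J O ∧ D ⊆ C}

theorem Atom.up {J : Set (Set X)} {O D C : Set X} (h : Atom J O D) (hC : C ∈ ins J O)
    (hDC : D ⊆ C) : Atom J O C ∧ un J O C = un J O D := by
  refine ⟨⟨hC, fun C₁ h1 C₂ h2 h3 h4 => h.2 C₁ h1 C₂ h2 (hDC.trans h3) (hDC.trans h4)⟩, ?_⟩
  apply Subset.antisymm
  · exact sUnion_subset_sUnion fun E hE => ⟨hE.1, hDC.trans hE.2⟩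
  · apply sUnion_subset
    rintro E ⟨hE, hDE⟩
    obtain ⟨C', hC', h1, h2⟩ := h.2 C hC E hE hDC hDE
    exact h2.trans (subset_sUnion_of_mem ⟨hC', h1⟩)

/-- the maximal directed unions inside `O` -/
def Mx (J : Set (Set X)) (O : Set X) : Set (Set X) := {E | ∃ D, Atom J O D ∧ E = un J O D}

theorem Mx_cl {J : Set (Set X)} {O E : Set X} (h : E ∈ Mx J O) : E ∈ cl J ∧ E ⊆ O := by
  obtain ⟨D, hD, rfl⟩ := h
  refine ⟨?_, sUnion_subset fun C hC => hC.1.2⟩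
  intro F hF
  induction F, hF using Set.Finite.induction_on with
  | empty => intro _; exact ⟨D, hD.1.1, empty_subset _, subset_sUnion_of_mem ⟨hD.1, subset_rfl⟩⟩
  | @insert a F _ _ ih =>
    intro haF
    have key : ∀ F : Set X, F.Finite → F ⊆ un J O D → ∃ C ∈ ins J O, D ⊆ C ∧ F ⊆ C := by
      intro F hF
      induction F, hF using Set.Finite.induction_on with
      | empty => intro _; exact ⟨D, hD.1, subset_rfl, empty_subset _⟩
      | @insert a F _ _ ih =>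
        intro haF
        rw [insert_subset_iff] at haF
        obtain ⟨C₁, hC₁, h1, h2⟩ := ih haF.2
        obtain ⟨C₂, ⟨hC₂, h3⟩, h4⟩ := haF.1
        obtain ⟨C, hC, h5, h6⟩ := hD.2 C₁ hC₁ C₂ hC₂ h1 h3
        exact ⟨C, hC, h1.trans h5, insert_subset (h6 h4) (h2.trans h5)⟩
    obtain ⟨C, hC, h1, h2⟩ := key (insert a F) (by
      rename_i hfin
      exact hfin.insert a) haF
    exact ⟨C, hC.1, h2, subset_sUnion_of_mem ⟨hC, h1⟩⟩

theorem Mx_finite {J : Set (Set X)} (hf : Fac J) (O : Set X) (p : X) :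
    {E | E ∈ Mx J O ∧ p ∈ E}.Finite := by
  by_contra hinf
  have hinf' : {E | E ∈ Mx J O ∧ p ∈ E}.Infinite := hinf
  let e := hinf'.natEmbedding
  have h : ∀ n, ∃ C, Atom J O C ∧ p ∈ C ∧ (e n).1 = un J O C := by
    intro n
    obtain ⟨⟨D, hD, hE⟩, hp⟩ := (e n).2
    rw [hE] at hp
    obtain ⟨C, ⟨hC, hDC⟩, hpC⟩ := hp
    obtain ⟨h1, h2⟩ := hD.up hC hDC
    exact ⟨C, h1, hpC, by rw [hE, h2]⟩
  choose C hC hp hE using h
  have key : ∀ m n, m ≠ n → ∀ C' ∈ ins J O, C m ⊆ C' → C n ⊆ C' → False := by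
    intro m n hmn C' hC' h1 h2
    have h3 := ((hC m).up hC' h1).2
    have h4 := ((hC n).up hC' h2).2
    apply hmn
    apply e.injective
    apply Subtype.ext
    rw [hE, hE, ← h3, h4]
  refine hf p C (fun n => ⟨(hC n).1.1, hp n⟩) ?_
  intro m n hmn
  exact ⟨fun h => key m n hmn.ne (C n) (hC n).1 h subset_rfl,
    fun h => key m n hmn.ne (C m) (hC m).1 subset_rfl h⟩

theorem Mx_cover {J : Set (Set X)} (hf : Fac J) (hne : ∀ B ∈ J, B.Nonempty) {O : Set X} {x : X}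
    {B : Set X} (hB : B ∈ J) (hBO : B ⊆ O) (hx : x ∈ B) : ∃ E ∈ Mx J O, x ∈ E := by
  obtain ⟨D, hD, hBD⟩ := exists_atom hf ⟨hB, hBO⟩ (hne B hB)
  exact ⟨un J O D, ⟨D, hD, rfl⟩, mem_sUnion.2 ⟨D, ⟨hD.1, subset_rfl⟩, hBD hx⟩⟩

/-- not contained in a member of `J` -/
def Unb (J : Set (Set X)) (E : Set X) : Prop := ∀ B ∈ J, ¬ E ⊆ B

/-- the members of the closure through a point that are not contained in a member of `J` satisfy
the descending chain condition -/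
theorem dcc {J : Set (Set X)} (hf : Fac J) (p : X) (E : ℕ → Set X)
    (h : ∀ n, E n ∈ cl J ∧ p ∈ E n ∧ Unb J (E n)) (hs : ∀ n, E (n + 1) ⊂ E n) : False := by
  classical
  have hanti : Antitone E := antitone_nat_of_succ_le fun n => (hs n).1
  have he : ∀ n, ∃ e, e ∈ E n ∧ e ∉ E (n + 1) := fun n => Set.exists_of_ssubset (hs n)
  choose e he1 he2 using he
  obtain ⟨f, hf1, hf2⟩ := exists_seq_of_forall_finset_exists
    (P := fun z : ℕ × Set X => z.2 ∈ J ∧ p ∈ z.2 ∧ e z.1 ∈ z.2 ∧ z.2 ⊆ E z.1)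
    (r := fun z w => z.1 < w.1 ∧ ¬ w.2 ⊆ z.2) (by
    intro s hs'
    obtain ⟨n, hn⟩ : ∃ n, ∀ z ∈ s, z.1 < n := by
      refine ⟨(s.sup fun z => z.1) + 1, fun z hz => ?_⟩
      exact Nat.lt_succ_of_le (Finset.le_sup (f := fun z : ℕ × Set X => z.1) hz)
    have hz : ∀ z : s, ∃ y, y ∈ E n ∧ y ∉ z.1.2 := by
      intro z
      exact Set.not_subset.1 ((h n).2.2 _ (hs' z.1 z.2).1)
    choose y hy1 hy2 using hz
    obtain ⟨B, hB, hFB, hBE⟩ := (h n).1 ({p, e n} ∪ range y)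
      ((toFinite _).union (finite_range y)) (by
        rintro z (hz | ⟨w, rfl⟩)
        · rcases hz with rfl | hz
          · exact (h n).2.1
          · rw [mem_singleton_iff] at hz
            rw [hz]; exact he1 n
        · exact hy1 w)
    refine ⟨(n, B), ⟨hB, hFB (Or.inl (Or.inl rfl)), hFB (Or.inl (Or.inr rfl)), hBE⟩, ?_⟩
    intro z hz
    refine ⟨hn z hz, fun hcon => ?_⟩
    exact hy2 ⟨z, hz⟩ (hcon (hFB (Or.inr ⟨⟨z, hz⟩, rfl⟩))))
  refine hf p (fun n => (f n).2) (fun n => ⟨(hf1 n).1, (hf1 n).2.1⟩) ?_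
  intro m n hmn
  refine ⟨fun hcon => ?_, (hf2 m n hmn).2⟩
  have h1 : E (f n).1 ⊆ E ((f m).1 + 1) := hanti (Nat.succ_le_of_lt (hf2 m n hmn).1)
  exact he2 _ (h1 ((hf1 n).2.2.2 (hcon (hf1 m).2.2.1)))

/-- descendants that are contained in a member of `J` -/
inductive Leaf (J : Set (Set X)) (ch : Set X → Set (Set X)) : Set X → Set X → Prop
  | base (E : Set X) (h : ¬ Unb J E) : Leaf J ch E E
  | step (E E' W : Set X) (h : Unb J E) (h' : E' ∈ ch E) (hW : Leaf J ch E' W) : Leaf J ch E W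

theorem Leaf.bdd {J : Set (Set X)} {ch : Set X → Set (Set X)} {E W : Set X}
    (h : Leaf J ch E W) : ∃ B ∈ J, W ⊆ B := by
  induction h with
  | base E h =>
    unfold Unb at h
    push Not at h
    exact h
  | step E E' W h h' hW ih => exact ih

section tree

variable {J : Set (Set X)} {ch : Set X → Set (Set X)}
  (hch : ∀ E ∈ cl J, Unb J E → (∀ E' ∈ ch E, E' ∈ cl J ∧ E' ⊂ E) ∧ (∀ x ∈ E, ∃ E' ∈ ch E, x ∈ E') ∧
    ∀ p, {E' | E' ∈ ch E ∧ p ∈ E'}.Finite)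

theorem acc_of {J : Set (Set X)} (hf : Fac J) (p : X) (E : Set X) (hE : E ∈ cl J) (hp : p ∈ E) :
    Acc (fun E' E : Set X => E' ∈ cl J ∧ p ∈ E' ∧ Unb J E ∧ E' ⊂ E) E := by
  by_contra hcon
  let T : Type u := {E : Set X // (E ∈ cl J ∧ p ∈ E) ∧
    ¬ Acc (fun E' E : Set X => E' ∈ cl J ∧ p ∈ E' ∧ Unb J E ∧ E' ⊂ E) E}
  have step : ∀ y : T, ∃ z : T, Unb J y.1 ∧ z.1 ⊂ y.1 := by
    rintro ⟨y, hy1, hy2⟩
    by_contra hcon2
    apply hy2
    refine Acc.intro y fun z hz => ?_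
    by_contra hz2
    exact hcon2 ⟨⟨z, ⟨hz.1, hz.2.1⟩, hz2⟩, hz.2.2.1, hz.2.2.2⟩
  choose g hg1 hg2 using step
  let y : ℕ → T := fun n => Nat.rec ⟨E, ⟨hE, hp⟩, hcon⟩ (fun _ z => g z) n
  have hy : ∀ n, y (n + 1) = g (y n) := fun n => rfl
  refine dcc hf p (fun n => (y n).1) (fun n => ⟨(y n).2.1.1, (y n).2.1.2, hg1 _⟩) ?_
  intro n
  show (y (n + 1)).1 ⊂ (y n).1
  rw [hy]; exact hg2 _

include hch in
theorem Leaf.sub {E W : Set X} (h : Leaf J ch E W) (hE : E ∈ cl J) : W ∈ cl J ∧ W ⊆ E := by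
  induction h with
  | base E h => exact ⟨hE, subset_rfl⟩
  | step E E' W h h' hW ih =>
    obtain ⟨h1, h2⟩ := (hch E hE h).1 E' h'
    exact ⟨(ih h1).1, (ih h1).2.trans h2.1⟩

include hch in
theorem Leaf.ex (hf : Fac J) (p : X) (E : Set X) (hE : E ∈ cl J) (hp : p ∈ E) :
    ∃ W, Leaf J ch E W ∧ p ∈ W := by
  have hacc := acc_of hf p E hE hp
  induction hacc with
  | intro E _ ih =>
    by_cases hU : Unb J E
    · obtain ⟨h1, h2, _⟩ := hch E hE hU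
      obtain ⟨E', hE', hpE'⟩ := h2 p hp
      obtain ⟨W, hW, hpW⟩ := ih E' ⟨(h1 E' hE').1, hpE', hU, (h1 E' hE').2⟩ (h1 E' hE').1 hpE'
      exact ⟨W, Leaf.step E E' W hU hE' hW, hpW⟩
    · exact ⟨E, Leaf.base E hU, hp⟩

include hch in
theorem Leaf.fin (hf : Fac J) (p : X) (E : Set X) (hE : E ∈ cl J) (hp : p ∈ E) :
    {W | Leaf J ch E W ∧ p ∈ W}.Finite := by
  have hacc := acc_of hf p E hE hp
  induction hacc with
  | intro E _ ih =>
    by_cases hU : Unb J E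
    · obtain ⟨h1, _, h3⟩ := hch E hE hU
      have hsub : {W | Leaf J ch E W ∧ p ∈ W} ⊆
          ⋃ E' ∈ {E' | E' ∈ ch E ∧ p ∈ E'}, {W | Leaf J ch E' W ∧ p ∈ W} := by
        rintro W ⟨hW, hpW⟩
        cases hW with
        | base _ h => exact absurd hU h
        | step _ E' _ _ h' hW =>
          have hpE' : p ∈ E' := (Leaf.sub hch hW (h1 E' h').1).2 hpW
          simp only [mem_iUnion]
          exact ⟨E', ⟨h', hpE'⟩, hW, hpW⟩
      refine Set.Finite.subset ((h3 p).biUnion fun E' hE' => ?_) hsub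
      exact ih E' ⟨(h1 E' hE'.1).1, hE'.2, hU, (h1 E' hE'.1).2⟩ (h1 E' hE'.1).1 hE'.2
    · refine Set.Finite.subset (finite_singleton E) ?_
      rintro W ⟨hW, hpW⟩
      cases hW with
      | base _ h => rfl
      | step _ E' _ h h' hW => exact absurd h hU

end tree

/-- The main lemma: a family of nonempty open sets, closed under the passage to small members,
without infinite incomparable sequences at a point, has a point-finite open refinement provided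
every unbounded member of the closure splits into two proper open subsets. -/
theorem main [TopologicalSpace X] {J : Set (Set X)} (hf : Fac J) (hne : ∀ B ∈ J, B.Nonempty)
    (ho : ∀ B ∈ J, IsOpen B)
    (hb : ∀ (O : Set X) (x : X), IsOpen O → x ∈ O → x ∈ ⋃₀ J → ∃ B ∈ J, x ∈ B ∧ B ⊆ O)
    (hsp : ∀ E, IsOpen E → E ⊆ ⋃₀ J → E.Nonempty → Unb J E →
      ∃ O₁ O₂, IsOpen O₁ ∧ IsOpen O₂ ∧ O₁ ∪ O₂ = E ∧ O₁ ≠ E ∧ O₂ ≠ E) :
    ∃ W : Set (Set X), (∀ V ∈ W, IsOpen V ∧ ∃ B ∈ J, V ⊆ B) ∧ ⋃₀ W = ⋃₀ J ∧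
      ∀ p, {V | V ∈ W ∧ p ∈ V}.Finite := by
  classical
  have hopen : ∀ E ∈ cl J, IsOpen E := by
    intro E hE
    rw [isOpen_iff_forall_mem_open]
    intro x hx
    obtain ⟨B, hB, hxB, hBE⟩ := hE {x} (finite_singleton x) (singleton_subset_iff.2 hx)
    exact ⟨B, hBE, ho B hB, singleton_subset_iff.1 hxB⟩
  have hsub : ∀ E ∈ cl J, E ⊆ ⋃₀ J := by
    intro E hE x hx
    obtain ⟨B, hB, hxB, hBE⟩ := hE {x} (finite_singleton x) (singleton_subset_iff.2 hx)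
    exact ⟨B, hB, singleton_subset_iff.1 hxB⟩
  have hnon : ∀ E ∈ cl J, E.Nonempty := by
    intro E hE
    obtain ⟨B, hB, _, hBE⟩ := hE ∅ finite_empty (empty_subset _)
    exact (hne B hB).mono hBE
  have hsplit : ∀ E : Set X, ∃ O₁ O₂ : Set X, E ∈ cl J → Unb J E →
      IsOpen O₁ ∧ IsOpen O₂ ∧ O₁ ∪ O₂ = E ∧ O₁ ≠ E ∧ O₂ ≠ E := by
    intro E
    by_cases h : E ∈ cl J ∧ Unb J E
    · obtain ⟨O₁, O₂, h'⟩ := hsp E (hopen E h.1) (hsub E h.1) (hnon E h.1) h.2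
      exact ⟨O₁, O₂, fun _ _ => h'⟩
    · exact ⟨∅, ∅, fun h1 h2 => absurd ⟨h1, h2⟩ h⟩
  choose O₁ O₂ hO using hsplit
  let ch : Set X → Set (Set X) := fun E => Mx J (O₁ E) ∪ Mx J (O₂ E)
  have hch : ∀ E ∈ cl J, Unb J E → (∀ E' ∈ ch E, E' ∈ cl J ∧ E' ⊂ E) ∧
      (∀ x ∈ E, ∃ E' ∈ ch E, x ∈ E') ∧ ∀ p, {E' | E' ∈ ch E ∧ p ∈ E'}.Finite := by
    intro E hE hU
    obtain ⟨h1, h2, h3, h4, h5⟩ := hO E hE hU
    refine ⟨?_, ?_, ?_⟩
    · rintro E' (hE' | hE')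
      · obtain ⟨h6, h7⟩ := Mx_cl hE'
        have h8 : O₁ E ⊆ E := fun z hz => h3 ▸ (Or.inl hz : z ∈ O₁ E ∪ O₂ E)
        exact ⟨h6, lt_of_le_of_lt h7 (lt_of_le_of_ne h8 h4)⟩
      · obtain ⟨h6, h7⟩ := Mx_cl hE'
        have h8 : O₂ E ⊆ E := fun z hz => h3 ▸ (Or.inr hz : z ∈ O₁ E ∪ O₂ E)
        exact ⟨h6, lt_of_le_of_lt h7 (lt_of_le_of_ne h8 h5)⟩
    · intro x hx
      have hx' := hx
      rw [← h3] at hx'
      rcases hx' with hx' | hx'
      · obtain ⟨B, hB, hxB, hBO⟩ := hb _ x h1 hx' (hsub E hE hx)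
        obtain ⟨E', hE', hxE'⟩ := Mx_cover hf hne hB hBO hxB
        exact ⟨E', Or.inl hE', hxE'⟩
      · obtain ⟨B, hB, hxB, hBO⟩ := hb _ x h2 hx' (hsub E hE hx)
        obtain ⟨E', hE', hxE'⟩ := Mx_cover hf hne hB hBO hxB
        exact ⟨E', Or.inr hE', hxE'⟩
    · intro p
      refine Set.Finite.subset ((Mx_finite hf (O₁ E) p).union (Mx_finite hf (O₂ E) p)) ?_
      rintro E' ⟨hE' | hE', hp⟩
      · exact Or.inl ⟨hE', hp⟩
      · exact Or.inr ⟨hE', hp⟩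
  refine ⟨{W | ∃ E ∈ Mx J univ, Leaf J ch E W}, ?_, ?_, ?_⟩
  · rintro V ⟨E, hE, hV⟩
    exact ⟨hopen V (Leaf.sub hch hV (Mx_cl hE).1).1, hV.bdd⟩
  · apply Subset.antisymm
    · apply sUnion_subset
      rintro V ⟨E, hE, hV⟩
      exact hsub V (Leaf.sub hch hV (Mx_cl hE).1).1
    · rintro x ⟨B, hB, hxB⟩
      obtain ⟨E, hE, hxE⟩ := Mx_cover hf hne hB (subset_univ B) hxB
      obtain ⟨W, hW, hxW⟩ := Leaf.ex hch hf x E (Mx_cl hE).1 hxE
      exact ⟨W, ⟨E, hE, hW⟩, hxW⟩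
  · intro p
    have hsub' : {V | V ∈ {W | ∃ E ∈ Mx J univ, Leaf J ch E W} ∧ p ∈ V} ⊆
        ⋃ E ∈ {E | E ∈ Mx J univ ∧ p ∈ E}, {W | Leaf J ch E W ∧ p ∈ W} := by
      rintro V ⟨⟨E, hE, hV⟩, hp⟩
      simp only [mem_iUnion]
      exact ⟨E, ⟨hE, (Leaf.sub hch hV (Mx_cl hE).1).2 hp⟩, hV, hp⟩
    exact Set.Finite.subset ((Mx_finite hf univ p).biUnion fun E hE =>
      Leaf.fin hch hf p E (Mx_cl hE.1).1 hE.2) hsub'

end Pool.Agent.N486.SR
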