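import Pool.Agent.N486.SR.Defs

set_option autoImplicit false

namespace Pool.Agent.N486.SR

open Set TopologicalSpace

/-- the topology of initial segments on the natural numbers -/
def initTop : TopologicalSpace ℕ where
  IsOpen U := ∀ a ∈ U, ∀ b, b ≤ a → b ∈ U
  isOpen_univ := fun _ _ _ _ => trivial
  isOpen_inter := fun U V hU hV a ha b hb => ⟨hU a ha.1 b hb, hV a ha.2 b hb⟩
  isOpen_sUnion := fun 𝒰 h a ⟨U, hU, ha⟩ b hb => ⟨U, hU, h U hU a ha b hb⟩

theorem initTop_open {U : Set ℕ} : @IsOpen ℕ initTop U ↔ ∀ a ∈ U, ∀ b, b ≤ a → b ∈ U := Iff.rfl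

theorem counter : ∃ (X : Type) (_ : TopologicalSpace X) (B : Set (Set X)), T0Space X ∧
    IsTopologicalBasis B ∧ SubinfiniteRank B ∧ ¬ Metacompact X := by
  letI : TopologicalSpace ℕ := initTop
  have hop : ∀ n : ℕ, IsOpen (Iic n) := by
    intro n
    rw [initTop_open]
    intro a ha b hb
    exact le_trans hb ha
  refine ⟨ℕ, inferInstance, range Iic, ?_, ?_, ?_, ?_⟩
  · refine ⟨fun x y h => ?_⟩
    have h1 : x ∈ Iic y := (h.mem_open_iff (hop y)).2 (mem_Iic.2 le_rfl)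
    have h2 : y ∈ Iic x := (h.mem_open_iff (hop x)).1 (mem_Iic.2 le_rfl)
    exact le_antisymm h1 h2
  · refine isTopologicalBasis_of_isOpen_of_nhds ?_ ?_
    · rintro _ ⟨n, rfl⟩
      exact hop n
    · intro a U ha hU
      refine ⟨Iic a, ⟨a, rfl⟩, mem_Iic.2 le_rfl, fun b hb => ?_⟩
      rw [initTop_open] at hU
      exact hU a ha b hb
  · intro Γ' hΓ hinc _
    have hsub : Γ'.Subsingleton := by
      intro A hA A' hA'
      by_contra hne
      obtain ⟨h1, h2⟩ := hinc A hA A' hA' hne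
      obtain ⟨m, rfl⟩ := hΓ hA
      obtain ⟨n, rfl⟩ := hΓ hA'
      rcases le_total m n with h | h
      · exact h1 (Iic_subset_Iic.2 h)
      · exact h2 (Iic_subset_Iic.2 h)
    exact hsub.finite
  · intro hm
    obtain ⟨𝒱, h1, h2, h3⟩ := hm (range Iic) (by rintro _ ⟨n, rfl⟩; exact hop n)
      (eq_univ_of_forall fun n => ⟨Iic n, ⟨n, rfl⟩, mem_Iic.2 le_rfl⟩)
    have hbd : ∃ N : ℕ, ∀ V ∈ {V | V ∈ 𝒱 ∧ 0 ∈ V}, V ⊆ Iic N := by
      have hfin := h3 0
      have : ∀ S : Set (Set ℕ), S.Finite → (∀ V ∈ S, ∃ n, V ⊆ Iic n) → ∃ N, ∀ V ∈ S, V ⊆ Iic N := by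
        intro S hS
        induction S, hS using Set.Finite.induction_on with
        | empty => intro _; exact ⟨0, fun V hV => absurd hV (notMem_empty _)⟩
        | @insert V S _ hS ih =>
          intro h
          obtain ⟨N, hN⟩ := ih fun V hV => h V (mem_insert_of_mem _ hV)
          obtain ⟨n, hn⟩ := h V (mem_insert _ _)
          refine ⟨max N n, ?_⟩
          rintro W (rfl | hW)
          · exact hn.trans (Iic_subset_Iic.2 (le_max_right _ _))
          · exact (hN W hW).trans (Iic_subset_Iic.2 (le_max_left _ _))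
      refine this _ hfin ?_
      rintro V ⟨hV, _⟩
      obtain ⟨_, V', ⟨n, rfl⟩, hVV⟩ := h1 V hV
      exact ⟨n, hVV⟩
    obtain ⟨N, hN⟩ := hbd
    have : N + 1 ∈ ⋃₀ 𝒱 := h2 ▸ mem_univ _
    obtain ⟨V, hV, hNV⟩ := this
    have h0 : 0 ∈ V := by
      have := (h1 V hV).1
      rw [initTop_open] at this
      exact this _ hNV 0 (Nat.zero_le _)
    have := hN V ⟨hV, h0⟩ hNV
    rw [mem_Iic] at this
    omega

end Pool.Agent.N486.SR
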