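import Mathlib

set_option autoImplicit false

universe u

namespace Pool.Agent.N486.SR

open Set

/-- `Γ` is incomparable: for distinct `A, B ∈ Γ` neither `A ⊆ B` nor `B ⊆ A`. -/
def Incomparable {X : Type u} (Γ : Set (Set X)) : Prop :=
  ∀ A ∈ Γ, ∀ B ∈ Γ, A ≠ B → ¬ A ⊆ B ∧ ¬ B ⊆ A

/-- `Γ` has subinfinite rank: every incomparable subfamily with nonempty intersection is finite. -/
def SubinfiniteRank {X : Type u} (Γ : Set (Set X)) : Prop :=
  ∀ Γ' : Set (Set X), Γ' ⊆ Γ → Incomparable Γ' → (⋂₀ Γ').Nonempty → Γ'.Finite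

/-- `X` is metacompact: every open cover of `X` has an open refinement (which is again a cover)
such that each point lies in only finitely many members of it. -/
def Metacompact (X : Type u) [TopologicalSpace X] : Prop :=
  ∀ 𝒰 : Set (Set X), (∀ U ∈ 𝒰, IsOpen U) → ⋃₀ 𝒰 = univ →
    ∃ 𝒱 : Set (Set X), (∀ V ∈ 𝒱, IsOpen V ∧ ∃ U ∈ 𝒰, V ⊆ U) ∧ ⋃₀ 𝒱 = univ ∧
      ∀ x : X, {V | V ∈ 𝒱 ∧ x ∈ V}.Finite

end Pool.Agent.N486.SR
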