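import Pool.Agent.N486.SR.Core
import Pool.Agent.N486.SR.Defs

set_option autoImplicit false

universe u

namespace Pool.Agent.N486.SR

open Set TopologicalSpace

variable {X : Type u}

/-- the members of the base that lie in a member of the cover -/
def small (B U : Set (Set X)) : Set (Set X) := {G | G ∈ B ∧ G.Nonempty ∧ ∃ V ∈ U, G ⊆ V}

theorem fac_of_sub {B J : Set (Set X)} (hr : SubinfiniteRank B) (hJ : J ⊆ B) : Fac J := by
  intro p G hG hinc
  have hne : ∀ m n, m ≠ n → ¬ G m ⊆ G n := by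
    intro m n hmn
    rcases lt_or_gt_of_ne hmn with h | h
    · exact (hinc m n h).1
    · exact (hinc n m h).2
  have hinj : Function.Injective G := by
    intro m n h
    by_contra hmn
    exact hne m n hmn h.subset
  have hfin := hr (range G) (by rintro _ ⟨n, rfl⟩; exact hJ (hG n).1) (by
    rintro _ ⟨m, rfl⟩ _ ⟨n, rfl⟩ h
    have hmn : m ≠ n := fun h' => h (by rw [h'])
    exact ⟨hne m n hmn, hne n m hmn.symm⟩) ⟨p, by rintro _ ⟨n, rfl⟩; exact (hG n).2⟩
  exact (infinite_range_of_injective hinj) hfin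

section

variable [TopologicalSpace X] {B : Set (Set X)} (hB : IsTopologicalBasis B)
  (hr : SubinfiniteRank B) {U : Set (Set X)} (hU : ∀ V ∈ U, IsOpen V)

include hB hU in
theorem small_base (O : Set X) (x : X) (hO : IsOpen O) (hx : x ∈ O) (hxU : x ∈ ⋃₀ U) :
    ∃ G ∈ small B U, x ∈ G ∧ G ⊆ O := by
  obtain ⟨V, hV, hxV⟩ := hxU
  obtain ⟨G, hG, hxG, hGO⟩ := hB.exists_subset_of_mem_open (a := x) (u := O ∩ V) ⟨hx, hxV⟩
    (hO.inter (hU V hV))
  exact ⟨G, ⟨hG, ⟨x, hxG⟩, V, hV, hGO.trans inter_subset_right⟩, hxG,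
    hGO.trans inter_subset_left⟩

include hB hU in
theorem small_union : ⋃₀ (small B U) = ⋃₀ U := by
  apply Subset.antisymm
  · apply sUnion_subset
    rintro G ⟨_, _, V, hV, hGV⟩
    exact hGV.trans (subset_sUnion_of_mem hV)
  · intro x hx
    obtain ⟨G, hG, hxG, _⟩ := small_base hB hU univ x isOpen_univ trivial hx
    exact ⟨G, hG, hxG⟩

include hB hr hU in
/-- general refinement theorem -/
theorem refine_of_split
    (hsp : ∀ E, IsOpen E → E ⊆ ⋃₀ U → E.Nonempty → Unb (small B U) E →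
      ∃ O₁ O₂, IsOpen O₁ ∧ IsOpen O₂ ∧ O₁ ∪ O₂ = E ∧ O₁ ≠ E ∧ O₂ ≠ E) :
    ∃ W : Set (Set X), (∀ V ∈ W, IsOpen V ∧ ∃ V' ∈ U, V ⊆ V') ∧ ⋃₀ W = ⋃₀ U ∧
      ∀ p, {V | V ∈ W ∧ p ∈ V}.Finite := by
  have hun := small_union hB hU
  obtain ⟨W, h1, h2, h3⟩ := main (J := small B U) (fac_of_sub hr fun G hG => hG.1)
    (fun G hG => hG.2.1) (fun G hG => hB.isOpen hG.1)
    (fun O x hO hx hxJ => small_base hB hU O x hO hx (hun ▸ hxJ))
    (fun E h1 h2 h3 h4 => hsp E h1 (hun ▸ h2) h3 h4)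
  refine ⟨W, fun V hV => ⟨(h1 V hV).1, ?_⟩, h2.trans hun, h3⟩
  obtain ⟨G, hG, hVG⟩ := (h1 V hV).2
  obtain ⟨_, _, V', hV', hGV⟩ := hG
  exact ⟨V', hV', hVG.trans hGV⟩

include hB hr hU in
/-- in an `R₀` space every open family has a point-finite open refinement with the same union -/
theorem refine_r0 [R0Space X] :
    ∃ W : Set (Set X), (∀ V ∈ W, IsOpen V ∧ ∃ V' ∈ U, V ⊆ V') ∧ ⋃₀ W = ⋃₀ U ∧
      ∀ p, {V | V ∈ W ∧ p ∈ V}.Finite := by
  apply refine_of_split hB hr hU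
  intro E hE hEU hne hunb
  obtain ⟨x, hx⟩ := hne
  obtain ⟨G, hG, hxG, hGE⟩ := small_base hB hU E x hE hx (hEU hx)
  obtain ⟨y, hy, hyG⟩ := Set.not_subset.1 (hunb G hG)
  have hyx : ¬ y ⤳ x := fun h => hyG (h.mem_open (hB.isOpen hG.1) hxG)
  have hxy : ¬ x ⤳ y := fun h => hyx h.symm
  refine ⟨E \ closure {x}, E \ closure {y}, hE.sdiff isClosed_closure,
    hE.sdiff isClosed_closure, ?_, ?_, ?_⟩
  · apply Subset.antisymm
    · exact union_subset sdiff_subset sdiff_subset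
    · intro z hz
      by_cases h1 : z ∈ closure ({x} : Set X)
      · right
        refine ⟨hz, fun h2 => ?_⟩
        have h3 : x ⤳ z := specializes_iff_mem_closure.2 h1
        have h4 : y ⤳ z := specializes_iff_mem_closure.2 h2
        exact hyx (h4.trans h3.symm)
      · exact Or.inl ⟨hz, h1⟩
  · intro h
    rw [← h] at hx
    exact hx.2 (subset_closure rfl)
  · intro h
    rw [← h] at hy
    exact hy.2 (subset_closure rfl)

end

/-- every subspace of an `R₀` space with a base of subinfinite rank is metacompact -/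
theorem metacompact_r0 [TopologicalSpace X] [R0Space X] {B : Set (Set X)}
    (hB : IsTopologicalBasis B) (hr : SubinfiniteRank B) (Y : Set X) : Metacompact Y := by
  intro 𝒰 h𝒰 hcov
  obtain ⟨W, h1, h2, h3⟩ := refine_r0 hB hr (U := {O | IsOpen O ∧ (Subtype.val ⁻¹' O : Set Y) ∈ 𝒰})
    (fun V hV => hV.1)
  refine ⟨(fun V : Set X => (Subtype.val ⁻¹' V : Set Y)) '' W, ?_, ?_, ?_⟩
  · rintro _ ⟨V, hV, rfl⟩
    obtain ⟨h4, V', hV', h5⟩ := h1 V hV
    exact ⟨h4.preimage continuous_subtype_val, _, hV'.2, preimage_mono h5⟩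
  · apply eq_univ_of_forall
    intro y
    have hy : y ∈ ⋃₀ 𝒰 := hcov ▸ mem_univ y
    obtain ⟨U, hU, hyU⟩ := hy
    obtain ⟨O, hO, hOU⟩ := isOpen_induced_iff.1 (h𝒰 U hU)
    have hyO : y.1 ∈ ⋃₀ {O | IsOpen O ∧ (Subtype.val ⁻¹' O : Set Y) ∈ 𝒰} := by
      refine ⟨O, ⟨hO, ?_⟩, ?_⟩
      · rw [hOU]; exact hU
      · rw [← hOU] at hyU; exact hyU
    rw [← h2] at hyO
    obtain ⟨V, hV, hyV⟩ := hyO
    exact ⟨_, ⟨V, hV, rfl⟩, hyV⟩
  · intro y
    refine ((h3 y.1).image fun V : Set X => (Subtype.val ⁻¹' V : Set Y)).subset ?_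
    rintro _ ⟨⟨V, hV, rfl⟩, hy⟩
    exact ⟨V, ⟨hV, hy⟩, rfl⟩

/-- the criterion without separation axioms -/
theorem metacompact_iff [TopologicalSpace X] {B : Set (Set X)}
    (hB : IsTopologicalBasis B) (hr : SubinfiniteRank B) :
    Metacompact X ↔ ∀ E : Set X, IsOpen E → E.Nonempty →
      (∀ O₁ O₂ : Set X, IsOpen O₁ → IsOpen O₂ → O₁ ∪ O₂ = E → O₁ = E ∨ O₂ = E) →
      ∃ z : X, ∀ U : Set X, IsOpen U → z ∈ U → E ⊆ U := by
  constructor
  · intro hm E hE hne hirr
    by_contra hcon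
    push Not at hcon
    choose U hU1 hU2 hU3 using hcon
    obtain ⟨𝒱, h1, h2, h3⟩ := hm (range U) (by rintro _ ⟨z, rfl⟩; exact hU1 z)
      (eq_univ_of_forall fun z => ⟨U z, ⟨z, rfl⟩, hU2 z⟩)
    obtain ⟨x, hx⟩ := hne
    have hprop : ∀ V ∈ 𝒱, ¬ E ⊆ V := by
      intro V hV hEV
      obtain ⟨_, V', ⟨z, rfl⟩, hVV⟩ := h1 V hV
      exact hU3 z (hEV.trans hVV)
    -- finite unions of the members do not cover `E`
    have hfinun : ∀ S : Set (Set X), S.Finite → S ⊆ 𝒱 → ¬ E ⊆ ⋃₀ S := by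
      intro S hS
      induction S, hS using Set.Finite.induction_on with
      | empty =>
        intro _ h
        simpa using h hx
      | @insert V S _ hS ih =>
        intro hVS h
        rw [insert_subset_iff] at hVS
        rw [sUnion_insert] at h
        rcases hirr (E ∩ V) (E ∩ ⋃₀ S) (hE.inter (h1 V hVS.1).1)
          (hE.inter (isOpen_sUnion fun W hW => (h1 W (hVS.2 hW)).1))
          (by rw [← inter_union_distrib_left]; exact inter_eq_left.2 h) with h' | h'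
        · exact hprop V hVS.1 (inter_eq_left.1 h')
        · exact ih hVS.2 (inter_eq_left.1 h')
    obtain ⟨y, hy, hyn⟩ := Set.not_subset.1 (hfinun _ (h3 x) fun V hV => hV.1)
    have hz : ∃ z ∈ E, z ∈ closure {x} ∧ z ∈ closure {y} := by
      by_contra hcon
      push Not at hcon
      rcases hirr (E \ closure {x}) (E \ closure {y}) (hE.sdiff isClosed_closure)
        (hE.sdiff isClosed_closure) (by
          apply Subset.antisymm
          · exact union_subset sdiff_subset sdiff_subset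
          · intro z hz
            by_cases h1 : z ∈ closure ({x} : Set X)
            · exact Or.inr ⟨hz, hcon z hz h1⟩
            · exact Or.inl ⟨hz, h1⟩) with h' | h'
      · rw [← h'] at hx
        exact hx.2 (subset_closure rfl)
      · rw [← h'] at hy
        exact hy.2 (subset_closure rfl)
    obtain ⟨z, hzE, hzx, hzy⟩ := hz
    have hzV : z ∈ ⋃₀ 𝒱 := h2 ▸ mem_univ z
    obtain ⟨V, hV, hzV⟩ := hzV
    have hxV : x ∈ V := (specializes_iff_mem_closure.2 hzx).mem_open (h1 V hV).1 hzV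
    have hyV : y ∈ V := (specializes_iff_mem_closure.2 hzy).mem_open (h1 V hV).1 hzV
    exact hyn ⟨V, ⟨hV, hxV⟩, hyV⟩
  · intro hcr 𝒰 h𝒰 hcov
    obtain ⟨W, h1, h2, h3⟩ := refine_of_split hB hr h𝒰 (by
      intro E hE _ hne hunb
      by_contra hcon
      push Not at hcon
      obtain ⟨z, hz⟩ := hcr E hE hne (fun O₁ O₂ h1 h2 h3 => by
        by_contra h4
        rw [not_or] at h4
        exact h4.2 (hcon O₁ O₂ h1 h2 h3 h4.1))
      obtain ⟨G, hG, hzG, _⟩ := small_base hB h𝒰 univ z isOpen_univ trivial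
        (hcov ▸ mem_univ z)
      exact hunb G hG (hz G (hB.isOpen hG.1) hzG))
    exact ⟨W, h1, h2.trans hcov, h3⟩

end Pool.Agent.N486.SR
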